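import Pool.Agent.Run7.h347.OW.Iface

/-!
# Piece DI of the project OW of helper347 on `MP_76989b_gt` (helper56)
-/

set_option autoImplicit false

open Set Filter Topology Pool.Agent.Results.MP_76989b_gt.NotFrechetUrysohn

namespace Pool.Agent.Run7.h56.OW

open Pool.Agent.Run7.h347.OW

/-- **Piece DI** -/
theorem t_DI (X : Type*) [TopologicalSpace X] : S_DI X := by
  intro hcount f hf
  have hmeet : ∀ x : X, ∀ V : Set ℝ, IsOpen V → f x ∈ V → ∀ G : Set X, IsOpen G → x ∈ G →
      (G ∩ interior {y | f y ∈ V}).Nonempty := by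
    intro x V hV hxV G hG hxG
    obtain ⟨W, hW, ⟨w, hw⟩, hWG, hWV⟩ := hf x G hG hxG V hV hxV
    refine ⟨w, hWG hw, ?_⟩
    have hsub : W ⊆ {y | f y ∈ V} := fun y hy => hWV ⟨y, hy, rfl⟩
    exact interior_maximal hsub hW hw
  constructor
  · set D : ℕ → Set X := fun k => {x | ∀ G : Set X, IsOpen G → x ∈ G →
      ∃ y ∈ G, ∃ z ∈ G, 1 / ((k : ℝ) + 1) ≤ |f y - f z|} with hD
    have hclosed : ∀ k, IsClosed (D k) := by
      intro k
      rw [← isOpen_compl_iff, isOpen_iff_mem_nhds]
      intro x hx
      rw [mem_compl_iff, hD] at hx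
      simp only [mem_ofPred_eq, not_forall] at hx
      obtain ⟨G, hG, hxG, hno⟩ := hx
      refine mem_of_superset (hG.mem_nhds hxG) fun y hy hyD => ?_
      exact hno (hyD G hG hy)
    have hint : ∀ k, interior (D k) = ∅ := by
      intro k
      rw [eq_empty_iff_forall_notMem]
      intro x hx
      have hpos : (0 : ℝ) < 1 / (2 * ((k : ℝ) + 1)) := by positivity
      obtain ⟨W, hW, ⟨w, hw⟩, hWG, hWV⟩ := hf x (interior (D k)) isOpen_interior hx
        (Metric.ball (f x) (1 / (2 * ((k : ℝ) + 1)))) Metric.isOpen_ball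
        (Metric.mem_ball_self hpos)
      obtain ⟨y, hy, z, hz, hyz⟩ := interior_subset (hWG hw) W hW hw
      have h1 : |f y - f x| < 1 / (2 * ((k : ℝ) + 1)) := by
        have := hWV ⟨y, hy, rfl⟩
        rwa [Metric.mem_ball, Real.dist_eq] at this
      have h2 : |f z - f x| < 1 / (2 * ((k : ℝ) + 1)) := by
        have := hWV ⟨z, hz, rfl⟩
        rwa [Metric.mem_ball, Real.dist_eq] at this
      have h3 : 1 / (2 * ((k : ℝ) + 1)) + 1 / (2 * ((k : ℝ) + 1)) = 1 / ((k : ℝ) + 1) := by
        field_simp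
        ring
      have h4 : |f y - f z| ≤ |f y - f x| + |f z - f x| := by
        rw [abs_sub_comm (f z) (f x)]
        exact abs_sub_le _ _ _
      linarith
    refine (countable_iUnion fun k => hcount (D k) (hclosed k) (hint k)).mono ?_
    intro x hx
    by_contra hno
    rw [mem_iUnion, not_exists] at hno
    refine hx ?_
    rw [Metric.continuousAt_iff']
    intro ε hε
    obtain ⟨k, hk⟩ := exists_nat_one_div_lt hε
    have h1 := hno k
    rw [hD] at h1
    simp only [mem_ofPred_eq, not_forall] at h1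
    obtain ⟨G, hG, hxG, hno⟩ := h1
    filter_upwards [hG.mem_nhds hxG] with y hy
    rw [Real.dist_eq]
    by_contra h2
    exact hno ⟨y, hy, x, hxG, by linarith [not_lt.1 h2]⟩
  · intro x hx
    rw [Metric.continuousAt_iff'] at hx
    push Not at hx
    obtain ⟨ε, hε, hx⟩ := hx
    have hV1 : IsOpen {t : ℝ | |t - f x| < ε / 3} := isOpen_lt (by fun_prop) continuous_const
    have hV2 : IsOpen {t : ℝ | 2 * ε / 3 < |t - f x|} := isOpen_lt continuous_const (by fun_prop)
    refine ⟨interior {y | f y ∈ {t : ℝ | |t - f x| < ε / 3}},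
      interior {y | f y ∈ {t : ℝ | 2 * ε / 3 < |t - f x|}}, isOpen_interior, isOpen_interior,
      ?_, ?_, ?_⟩
    · rw [Set.disjoint_left]
      intro y h1 h2
      have h3 := interior_subset h1
      have h4 := interior_subset h2
      have h5 : |f y - f x| < ε / 3 := h3
      have h6 : 2 * ε / 3 < |f y - f x| := h4
      linarith
    · rw [mem_closure_iff]
      intro G hG hxG
      exact hmeet x _ hV1 (by simp only [mem_ofPred_eq, sub_self, abs_zero]; positivity) G hG hxG
    · rw [mem_closure_iff]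
      intro G hG hxG
      obtain ⟨y, hy, hyG⟩ := (hx.and_eventually (hG.mem_nhds hxG)).exists
      rw [Real.dist_eq] at hy
      exact hmeet y _ hV2 (by simp only [mem_ofPred_eq]; linarith) G hG hyG

end Pool.Agent.Run7.h56.OW
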